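import Pool.Agent.Y706.BI.Stm

/-!
# Project BI: the pairing at a place
-/

namespace Pool.Agent.Y366.BI

open Pool.Agent.W277.UB Pool.Agent.W277.UG Pool.Agent.W277.UH Pool.Agent.Y706.BI Finset Polynomial

universe u

theorem t_PAIR (hG : S_GRN.{u}) : S_PAIR.{u} := by
  intro K _ _ Ω _ _ _ ι ord hι hnat d hd p q hp hq hco P hP a ha S₀ hS₀F hS₀d hS₀R A B h s hs T hT
  obtain ⟨-, -, -, g4, -, g6, -, -, -, -⟩ := hG Ω hnat T
  have hdR : (2 : ℝ) ≤ d := by exact_mod_cast hd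
  have hd1 : (0 : ℝ) < (d : ℝ) - 1 := by linarith
  have hSd : T.S.d = d := by
    rw [hT]
    exact hS₀d
  have hSR : T.S.Res = (ord (resultant q p d d) : ℝ) - (d * ((d : ℝ) - 1)) * Real.log ‖wd A B‖ -
      2 * d * Real.log ‖s‖ := by
    rw [hT]
    change S₀.Res - (S₀.d * ((S₀.d : ℝ) - 1)) * Real.log ‖wd A B‖ - 2 * S₀.d * Real.log ‖s‖ = _
    rw [hS₀R, hS₀d]
  have hSF : ∀ Y, T.S.F Y = s • gi A B (S₀.F (gm A B Y)) := by
    intro Y
    rw [hT]
    rfl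
  -- the vectors
  have hW : ∀ z : K, gi A B ((ι z, 1) : Ω × Ω) ≠ 0 := by
    intro z h0
    have h1 := gm_gi h ((ι z, 1) : Ω × Ω)
    rw [h0] at h1
    have h2 := congrArg Prod.snd h1
    simp [gm] at h2
  set X : K → UV Ω := fun z => nrm (gi A B ((ι z, 1) : Ω × Ω)) (hW z) with hX
  have hex : ∀ z : K, ∃ t : Ω, t ≠ 0 ∧ gi A B ((ι z, 1) : Ω × Ω) = t • (X z).1 := by
    intro z
    obtain ⟨t, h1, h2, -⟩ := nrm_spec (gi A B ((ι z, 1) : Ω × Ω)) (hW z)
    exact ⟨t, h1, h2⟩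
  choose t ht htX using hex
  have hlogt : ∀ z, (0 : ℝ) < ‖t z‖ := fun z => norm_pos_iff.mpr (ht z)
  have hls : (0 : ℝ) < ‖s‖ := norm_pos_iff.mpr hs
  set fz : K → K := fun z => p.eval z / q.eval z with hfz
  have hfP : ∀ z ∈ P, fz z ∈ P := fun z hz => (hP z hz).2
  have hlog : ∀ x : K, x ≠ 0 → Real.log ‖ι x‖ = -(ord x : ℝ) := by
    intro x hx
    rw [hι x hx, Real.log_exp]
  -- the action of the map
  have hS0 : ∀ z ∈ P, S₀.F ((ι z, 1) : Ω × Ω) = ι (q.eval z) • ((ι (fz z), 1) : Ω × Ω) := by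
    intro z hz
    have h1 : hev d (p.map ι) ((ι z, 1) : Ω × Ω) = ι (p.eval z) := by
      have := hev_map ι d p (z, 1)
      rw [hev_one d p hp] at this
      rw [← this]
      simp [vm]
    have h2 : hev d (q.map ι) ((ι z, 1) : Ω × Ω) = ι (q.eval z) := by
      have := hev_map ι d q (z, 1)
      rw [hev_one d q hq.le] at this
      rw [← this]
      simp [vm]
    rw [hS₀F]
    unfold bF
    rw [h1, h2]
    have h3 : ι (q.eval z) ≠ 0 := (map_ne_zero ι).mpr (hP z hz).1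
    ext
    · simp only [hfz, Prod.smul_fst, smul_eq_mul, map_div₀]
      field_simp
    · simp
  have hFX : ∀ z ∈ P, T.S.F (X z).1 =
      ((t z ^ d)⁻¹ * (s * ι (q.eval z) * t (fz z))) • (X (fz z)).1 := by
    intro z hz
    have h1 : T.S.F (gi A B ((ι z, 1) : Ω × Ω)) =
        (s * ι (q.eval z)) • gi A B ((ι (fz z), 1) : Ω × Ω) := by
      rw [hSF, gm_gi h, hS0 z hz, gi_smul, smul_smul]
    rw [htX z, T.S.hom, hSd, htX (fz z), smul_smul] at h1
    have h2 : T.S.F (X z).1 = (t z ^ d)⁻¹ • (t z ^ d • T.S.F (X z).1) := by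
      rw [smul_smul, inv_mul_cancel₀ (pow_ne_zero _ (ht z)), one_smul]
    rw [h2, h1, smul_smul]
  have hμ0 : ∀ z ∈ P, (t z ^ d)⁻¹ * (s * ι (q.eval z) * t (fz z)) ≠ 0 := by
    intro z hz
    exact mul_ne_zero (inv_ne_zero (pow_ne_zero _ (ht z)))
      (mul_ne_zero (mul_ne_zero hs ((map_ne_zero ι).mpr (hP z hz).1)) (ht _))
  have hhh : ∀ z ∈ P, hh T.S (X z) = -(d * Real.log ‖t z‖) + (Real.log ‖s‖ -
      (ord (q.eval z) : ℝ) + Real.log ‖t (fz z)‖) := by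
    intro z hz
    unfold hh
    have h3 : ι (q.eval z) ≠ 0 := (map_ne_zero ι).mpr (hP z hz).1
    rw [hFX z hz, norm_smul, (X (fz z)).2, mul_one, norm_mul, norm_mul, norm_mul, norm_inv,
      norm_pow, Real.log_mul (inv_ne_zero (pow_ne_zero _ (hlogt z).ne'))
        (mul_pos (mul_pos hls (norm_pos_iff.mpr h3)) (hlogt (fz z))).ne',
      Real.log_mul (mul_pos hls (norm_pos_iff.mpr h3)).ne' (hlogt (fz z)).ne',
      Real.log_mul hls.ne' (norm_pos_iff.mpr h3).ne',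
      hlog _ (hP z hz).1, Real.log_inv, Real.log_pow]
    ring
  have heq : ∀ z ∈ P, eqv (fU T.S (X z)) (X (fz z)) := by
    intro z hz
    obtain ⟨τ, h1, h2, -⟩ := nrm_spec (T.S.F (X z).1) (T.S.nz _ (X z).ne)
    have h3 : wd (T.S.F (X z).1) (X (fz z)).1 = 0 := by
      rw [hFX z hz, wd_smul_left, wd_self, mul_zero]
    rw [h2, wd_smul_left] at h3
    exact (mul_eq_zero.mp h3).resolve_left h1
  have hG0 : ∀ z ∈ P, G0 T.S (X (fz z)) = d * G0 T.S (X z) - hh T.S (X z) := by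
    intro z hz
    rw [← (g6 _ _ (heq z hz)).2.1, g4, hSd]
  -- the invariant function
  have hinv : ∀ z ∈ P, G0 T.S (X z) + Real.log ‖t z‖ - Real.log ‖s‖ / ((d : ℝ) - 1) + a z = 0 := by
    refine stable_zero d hd P fz hfP
      (fun z => G0 T.S (X z) + Real.log ‖t z‖ - Real.log ‖s‖ / ((d : ℝ) - 1) + a z) ?_
    intro z hz
    have h1 := hG0 z hz
    have h2 := hhh z hz
    have h3 := ha z hz
    have h4 : (d : ℝ) * (Real.log ‖s‖ / ((d : ℝ) - 1)) =
        Real.log ‖s‖ + Real.log ‖s‖ / ((d : ℝ) - 1) := by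
      field_simp
      ring
    rw [h1, h2]
    have h5 : a (fz z) = d * a z - ord (q.eval z) := by
      rw [h3]
      ring
    rw [h5]
    linear_combination -h4
  refine ⟨X, fun z hz z' hz' hne => ?_⟩
  have hwd : (t z * t z') * wd (X z).1 (X z').1 = (wd A B)⁻¹ * ι (z - z') := by
    have h1 : wd (gi A B ((ι z, 1) : Ω × Ω)) (gi A B ((ι z', 1) : Ω × Ω)) =
        (wd A B)⁻¹ * ι (z - z') := by
      rw [wd_gi h, gm_gi h]
      congr 1
      unfold wd
      rw [map_sub]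
      ring
    rw [htX z, htX z', wd_smul_left, wd_smul_right] at h1
    rw [← h1]
    ring
  have hzz : z - z' ≠ 0 := sub_ne_zero.mpr hne
  have hw0 : wd (X z).1 (X z').1 ≠ 0 := by
    intro h0
    rw [h0, mul_zero] at hwd
    exact mul_ne_zero (inv_ne_zero h) ((map_ne_zero ι).mpr hzz) hwd.symm
  refine ⟨hw0, ?_⟩
  have hlw := congrArg (fun x : Ω => Real.log ‖x‖) hwd
  simp only [norm_mul, norm_inv] at hlw
  rw [Real.log_mul (mul_pos (hlogt z) (hlogt z')).ne' (norm_pos_iff.mpr hw0).ne',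
    Real.log_mul (hlogt z).ne' (hlogt z').ne',
    Real.log_mul (inv_ne_zero (norm_pos_iff.mpr h).ne')
      (norm_pos_iff.mpr ((map_ne_zero ι).mpr hzz)).ne', Real.log_inv, hlog _ hzz] at hlw
  have i1 := hinv z hz
  have i2 := hinv z' hz'
  unfold gg
  rw [hSd, hSR]
  have e1 : ((ord (resultant q p d d) : ℝ) - (d * ((d : ℝ) - 1)) * Real.log ‖wd A B‖ -
      2 * d * Real.log ‖s‖) / (d * ((d : ℝ) - 1)) =
      (ord (resultant q p d d) : ℝ) / (d * ((d : ℝ) - 1)) - Real.log ‖wd A B‖ -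
      2 * (Real.log ‖s‖ / ((d : ℝ) - 1)) := by
    field_simp
  rw [e1]
  linear_combination i1 + i2 - hlw

end Pool.Agent.Y366.BI
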